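import Pool.Agent.H70.OQ.All
import Pool.Agent.H75.GS.Targets2

/-!
# Row LMX: the limit of the stages
-/

set_option autoImplicit false

namespace Pool.Agent.H68.GS

open Finset Filter Pool.Agent.H6.NB Pool.Agent.H70.OQ Pool.Agent.H75.GS

/-- The good pairs. -/
def Gd (A : List Bool → (List Bool → Bool) → Prop) (σ : List Bool → Bool) : Prop :=
  LocA A ∧ (∀ s, Dec σ s) ∧ Uniq σ

/-- The states of the construction. -/
abbrev Stt : Type := {p : (List Bool → (List Bool → Bool) → Prop) × (List Bool → Bool) //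
  Gd p.1 p.2}

theorem agr_trans {l l' : ℕ} (hl : l ≤ l') {A A' A'' : List Bool → (List Bool → Bool) → Prop}
    {σ σ' σ'' : List Bool → Bool} (h : Agr l A A' σ σ') (h' : Agr l' A' A'' σ' σ'') :
    Agr l A A'' σ σ'' :=
  ⟨fun s hs => (h.1 s hs).trans (h'.1 s (by omega)), fun w hw => (h.2 w hw).trans (h'.2 w (by omega))⟩

theorem lmx : T_LMX := by
  intro l Con hl hcon hstep
  have step : ∀ (r : ℕ) (X : Stt), ∃ X' : Stt,
      Agr (l r) X.1.1 X'.1.1 X.1.2 X'.1.2 ∧ Con r X'.1.1 X'.1.2 := by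
    intro r X
    obtain ⟨A', σ', h2, h3, h4, h5, h6⟩ := hstep r X.1.1 X.1.2 X.2.1 X.2.2.1 X.2.2.2
    exact ⟨⟨(A', σ'), h2, h3, h4⟩, h5, h6⟩
  choose nx n2 n3 using step
  have hd0 : ∀ s, Dec (fun _ => false) s := pf_INI
  have g0 : Gd (fun _ _ => False) (fun _ => false) :=
    ⟨fun _ _ _ _ => Iff.rfl, hd0, fun _ _ _ _ _ h _ => absurd h (by simp)⟩
  let X : ℕ → Stt := fun r => Nat.rec ⟨((fun _ _ => False), fun _ => false), g0⟩
    (fun r x => nx r x) r
  have hX : ∀ r, X (r + 1) = nx r (X r) := fun r => rfl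
  set A : ℕ → List Bool → (List Bool → Bool) → Prop := fun r => (X r).1.1 with hA
  set σ : ℕ → List Bool → Bool := fun r => (X r).1.2 with hσ
  have f2 : ∀ r, Agr (l r) (A r) (A (r + 1)) (σ r) (σ (r + 1)) := by
    intro r
    have := n2 r (X r)
    rw [← hX] at this
    exact this
  have f3 : ∀ r, Con r (A (r + 1)) (σ (r + 1)) := by
    intro r
    have := n3 r (X r)
    rw [← hX] at this
    exact this
  have f5 : ∀ r, r ≤ l r := fun r => hl.id_le r
  have f6 : ∀ r i, r ≤ i → Agr (l r) (A r) (A i) (σ r) (σ i) := by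
    intro r i hri
    induction i, hri using Nat.le_induction with
    | base => exact ⟨fun _ _ => rfl, fun _ _ => rfl⟩
    | succ i hi ih => exact agr_trans (hl.monotone hi) ih (f2 i)
  set A' : List Bool → (List Bool → Bool) → Prop := fun s => A (s.length + 1) s with hA'
  set σ' : List Bool → Bool := fun w => σ (w.length + 1) w with hσ'
  have f7 : ∀ r, Agr (l r) (A r) A' (σ r) σ' := by
    intro r
    constructor
    · intro s hs
      change A r s = A (s.length + 1) s
      rcases le_total r (s.length + 1) with h | h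
      · exact (f6 r _ h).1 s hs
      · exact ((f6 _ r h).1 s (lt_of_lt_of_le (Nat.lt_succ_self _) (f5 _))).symm
    · intro w hw
      change σ r w = σ (w.length + 1) w
      rcases le_total r (w.length + 1) with h | h
      · exact (f6 r _ h).2 w hw
      · exact ((f6 _ r h).2 w (lt_of_lt_of_le (Nat.lt_succ_self _) (f5 _))).symm
  refine ⟨A', σ', fun s O O' h => (X (s.length + 1)).2.1 s O O' h, fun s => ?_,
    fun u v v' hv hv' h h' => ?_, fun r => hcon r _ _ _ _ (f7 (r + 1)) (f3 r)⟩
  · obtain ⟨m, hm⟩ := Pool.Agent.H6.NB.pf_DCC s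
    refine (hm (σ (m + 1)) σ' fun w hw => (f7 (m + 1)).2 w ?_).1 ((X (m + 1)).2.2.1 s)
    have := f5 (m + 1)
    omega
  · have hr := f5 (3 * u.length + 2)
    have e1 := (f7 (3 * u.length + 2)).2 (false :: (u ++ v)) (by simp; omega)
    have e2 := (f7 (3 * u.length + 2)).2 (false :: (u ++ v')) (by simp; omega)
    exact (X (3 * u.length + 2)).2.2.2 u v v' hv hv' (e1.trans h) (e2.trans h')

end Pool.Agent.H68.GS
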