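import Pool.Agent.H70.OQ.All
import Pool.Agent.H75.GS.Targets2

/-!
# Row STR: the stage `r`
-/

set_option autoImplicit false

namespace Pool.Agent.H68.GS

open Finset Filter Pool.Agent.H6.NB Pool.Agent.H70.OQ Pool.Agent.H75.GS

/-- The new machine: `A` below `l`, the universal machine from `l` on. -/
def mix (l K : ℕ) (prog : List Bool → List (List Bool) → DT)
    (A : List Bool → (List Bool → Bool) → Prop) (s : List Bool) (O : List Bool → Bool) : Prop :=
  if s.length < l then A s O else acck K prog s O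

theorem mix_loc {l K : ℕ} {prog : List Bool → List (List Bool) → DT}
    {A : List Bool → (List Bool → Bool) → Prop} (hp : Smallk K prog) (hA : LocA A) :
    LocA (mix l K prog A) := by
  intro s O O' h
  unfold mix
  split_ifs with hs
  · exact hA s O O' h
  · exact pf_LAK K prog hp s O O' h

theorem mix_low {l K : ℕ} {prog : List Bool → List (List Bool) → DT}
    {A : List Bool → (List Bool → Bool) → Prop} {s : List Bool} (hs : s.length < l)
    (O : List Bool → Bool) : mix l K prog A s O ↔ A s O := by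
  unfold mix
  rw [if_pos hs]

theorem mix_high {l K : ℕ} {prog : List Bool → List (List Bool) → DT}
    {A : List Bool → (List Bool → Bool) → Prop} {s : List Bool} (hs : l ≤ s.length)
    (O : List Bool → Bool) : mix l K prog A s O ↔ acck K prog s O := by
  unfold mix
  rw [if_neg (by omega)]

/-- The sampler for the instances of the machine `M`. -/
def cmp (S : Sampler) (f : List Bool → List Bool) : Sampler where
  alg := S.alg
  out z := f (S.out z)

theorem cmp_hit (S : Sampler) (f : List Bool → List Bool) (O : List Bool → Bool)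
    (E E' : Set (List Bool)) (h : ∀ y, y ∈ E → f y ∈ E') : S.hit O E ≤ (cmp S f).hit O E' := by
  classical
  unfold Sampler.hit
  change _ ≤ ∑ z : S.alg.basis, if f (S.out z) ∈ E' then ‖S.alg.state O S.alg.T z‖ ^ 2 else 0
  refine Finset.sum_le_sum fun z _ => ?_
  by_cases hz : S.out z ∈ E
  · rw [if_pos hz, if_pos (h _ hz)]
  · rw [if_neg hz]
    split_ifs
    · positivity
    · exact le_rfl

/-- Common bounds for finitely many algorithms. -/
theorem common (c : ℕ) (e C : ℕ → ℕ) (ε : ℕ → ℝ) (hε : ∀ i, 0 < ε i) :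
    ∃ (e' C' : ℕ) (ε' : ℝ), 0 < ε' ∧ ∀ i < c, e i ≤ e' ∧ C i ≤ C' ∧ ε' ≤ ε i := by
  induction c with
  | zero => exact ⟨0, 0, 1, one_pos, fun i hi => absurd hi (by omega)⟩
  | succ c ih =>
    obtain ⟨e', C', ε', h0, h⟩ := ih
    refine ⟨max e' (e c), max C' (C c), min ε' (ε c), lt_min h0 (hε c), fun i hi => ?_⟩
    rcases Nat.lt_succ_iff_lt_or_eq.1 hi with hi | rfl
    · obtain ⟨h1, h2, h3⟩ := h i hi
      exact ⟨h1.trans (le_max_left _ _), h2.trans (le_max_left _ _), (min_le_left _ _).trans h3⟩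
    · exact ⟨le_max_right _ _, le_max_right _ _, min_le_right _ _⟩

theorem le_Ln (r : ℕ) : r ≤ Ln r := by
  unfold Ln
  exact (Nat.lt_two_pow_self.le.trans Nat.lt_two_pow_self.le).trans Nat.lt_two_pow_self.le

theorem Ln_succ (r : ℕ) : Ln (r + 1) = Ln r ^ 2 ^ 2 ^ r := by
  unfold Ln
  rw [← pow_mul, ← pow_add]
  congr 2
  ring

theorem two_le_Ln (r : ℕ) : 2 ≤ Ln r := by
  unfold Ln
  calc 2 = 2 ^ 1 := by norm_num
    _ ≤ 2 ^ 2 ^ 2 ^ r := Nat.pow_le_pow_right (by norm_num) Nat.one_le_two_pow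

theorem Ln_step {a r : ℕ} (h : a ≤ r) : Ln r ^ 2 ^ a + 1 ≤ Ln (r + 1) := by
  rw [Ln_succ]
  have h2 := two_le_Ln r
  have h3 : a + 1 ≤ 2 ^ r := lt_of_le_of_lt h Nat.lt_two_pow_self
  have h4 : Ln r ^ 2 ^ (a + 1) ≤ Ln r ^ 2 ^ 2 ^ r :=
    Nat.pow_le_pow_right (by omega) (Nat.pow_le_pow_right (by norm_num) h3)
  refine le_trans ?_ h4
  rw [pow_succ, pow_mul, sq]
  have h5 : 2 ≤ Ln r ^ 2 ^ a := h2.trans (Nat.le_self_pow (by positivity) _)
  nlinarith

theorem Ln_big {r : ℕ} (h : 3 ≤ r) : 8 * (r + 1) ≤ Ln r := by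
  have h1 : r + 4 ≤ 2 ^ r := by
    induction r, h using Nat.le_induction with
    | base => norm_num
    | succ r hr ih => rw [pow_succ]; omega
  have h2 : 2 ^ (r + 4) ≤ 2 ^ 2 ^ r := Nat.pow_le_pow_right (by norm_num) h1
  have h3 : 2 ^ 2 ^ r ≤ Ln r := Nat.lt_two_pow_self.le
  have h4 : r + 1 ≤ 2 ^ r := Nat.lt_two_pow_self
  rw [pow_add] at h2
  omega

theorem tendsto_Ln : Tendsto Ln atTop atTop := tendsto_atTop_mono le_Ln tendsto_id

theorem agr_mono {l l' : ℕ} (hl : l ≤ l') {A A' : List Bool → (List Bool → Bool) → Prop}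
    {σ σ' : List Bool → Bool} (h : Agr l' A A' σ σ') : Agr l A A' σ σ' :=
  ⟨fun s hs => h.1 s (by omega), fun w hw => h.2 w (by omega)⟩

theorem str (hSTG : Pool.Agent.H75.GS.T_STG) (hGRW : T_GRW) (hMSK : T_MSK) : T_STR := by
  classical
  intro κ V Q S g K prog c hp hyp
  obtain ⟨hQ, hS⟩ := hyp
  choose ci Ci εi hεi hQ using hQ
  obtain ⟨cm, Cm, ε, hε, hcm⟩ := common c ci Ci εi hεi
  have hS1 := fun j => (hS j).1
  choose cj hcj using hS1
  obtain ⟨c', hc'⟩ : ∃ c', ∀ j < c, cj j ≤ c' :=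
    ⟨(range c).sup cj, fun j hj => Finset.le_sup (f := cj) (mem_range.2 hj)⟩
  obtain ⟨a, ha⟩ := hSTG K cm Cm c' (cm + 1) (2 ^ (cm + 1) + 3) c ε hε (by omega)
    (lt_of_lt_of_le Nat.lt_two_pow_self (Nat.pow_le_pow_right (by norm_num) (by omega))) prog hp
  have hG : ∀ᶠ n : ℕ in atTop, ∀ j ∈ range c, ∀ m < n ^ 2 ^ (cm + 1),
      8 * (g j m + 0) ≤ n :=
    (Filter.eventually_all_finset _).2 fun j _ => hGRW (g j) (hS j).2 (2 ^ (cm + 1)) 0
  filter_upwards [tendsto_Ln.eventually ha, tendsto_Ln.eventually hG,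
    tendsto_Ln.eventually (eventually_ge_atTop (c + 2)), eventually_ge_atTop (a + 3)]
    with r hn hG hnc hra A σ hA hσ hU
  set n := Ln r with hnn
  set H : ℕ := n ^ 2 ^ (cm + 1) with hH
  have hn1 : 1 ≤ n := by omega
  have hH1 : 1 ≤ H := Nat.one_le_pow _ _ (by omega)
  have hloc := mix_loc (l := n) hp hA
  obtain ⟨u, σ', hu, h1, h2, h3, h4⟩ := hn (Fin c) (fun j => Q j) (by simp)
    (fun j x hx => by
      obtain ⟨hs1, hs2⟩ := hQ j x
      obtain ⟨e1, e2, e3⟩ := hcm j j.2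
      rw [hx] at hs1 hs2
      refine ⟨fun i w hw => (hs1 i w hw).trans
        (add_le_add (Nat.pow_le_pow_right hn1 e1) e1), hs2.trans ?_⟩
      have e4 : (2 : ℝ) ^ ((1 / 2 - εi j) * (n : ℝ)) ≤ 2 ^ ((1 / 2 - ε) * (n : ℝ)) := by
        refine Real.rpow_le_rpow_of_exponent_le (by norm_num) ?_
        refine mul_le_mul_of_nonneg_right (by linarith) (by positivity)
      have e5 : (Ci j : ℝ) ≤ Cm := by exact_mod_cast e2
      exact mul_le_mul e5 e4 (by positivity) (by positivity))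
    (Fin c × Fin c × Fin H) (fun p => cmp (S p.2.1 p.2.2) (inst (V p.1).c p.1))
    (by
      simp only [Fintype.card_prod, Fintype.card_fin]
      calc c * (c * H) ≤ n * (n * H) :=
            Nat.mul_le_mul (by omega) (Nat.mul_le_mul (by omega) le_rfl)
        _ = n ^ (2 ^ (cm + 1) + 2) := by rw [hH]; ring
        _ ≤ n ^ (2 ^ (cm + 1) + 3) := Nat.pow_le_pow_right (by omega) (by omega))
    (fun p => by
      obtain ⟨hs1, hs2⟩ := hcj p.2.1 p.2.2
      refine ⟨fun i w hw => ?_, ?_⟩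
      · refine (hs1 i w hw).trans ?_
        have e1 : (p.2.2 : ℕ) ^ cj p.2.1 ≤ H ^ c' :=
          (Nat.pow_le_pow_left p.2.2.2.le _).trans (Nat.pow_le_pow_right hH1 (hc' _ p.2.1.2))
        exact add_le_add e1 (hc' _ p.2.1.2)
      · have e2 : (S p.2.1 p.2.2).alg.T ^ 8 ≤ (2 ^ g p.2.1 p.2.2) ^ 8 :=
          Nat.pow_le_pow_left hs2 8
        refine e2.trans ?_
        rw [← pow_mul]
        refine Nat.pow_le_pow_right (by norm_num) ?_
        have := hG p.2.1 (mem_range.2 p.2.1.2) p.2.2 p.2.2.2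
        omega)
    (mix n K prog A) σ hloc (fun s O hs => mix_high hs O) hσ hU
  have hstep : n ^ 2 ^ a + 1 ≤ Ln (r + 1) := Ln_step (by omega)
  refine ⟨mskA H u (mix n K prog A), σ', (hMSK _ hloc).1 H u, h2, h3,
    ⟨fun s hs => ?_, fun w hw => (h1 w hw).symm⟩, H, u, fun s O hs1 hs2 => ?_,
    fun A'' σ'' O hagr hB => ?_⟩
  · funext O
    refine propext ?_
    have e1 := (hMSK _ hloc).2.2 H u s O (by rw [hu]; nlinarith)
    rw [e1]
    exact (mix_low hs O).symm
  · unfold mskA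
    split_ifs with hs
    · exact mix_high hs1 _
    · exact mix_high hs1 _
  · obtain ⟨h5, h6⟩ := h4 A'' σ'' O (agr_mono hstep hagr) hB
    refine ⟨fun i hi => h5 ⟨i, hi⟩, fun i hi j hj m hm => ?_⟩
    have h7 := h6 (⟨i, hi⟩, ⟨j, hj⟩, ⟨m, hm⟩)
    refine (cmp_hit (S j m) (inst (V i).c i) O _ _ ?_).trans (h7.trans ?_)
    · rintro y ⟨hy1, hy2, hy3⟩
      refine ⟨hy2, ?_⟩
      rw [mix_high hy1, mix_high hy1]
      exact hy3
    · refine one_div_le_one_div_of_le (by positivity) (pow_le_pow_right₀ (by norm_num) ?_)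
      have e1 := hG j (mem_range.2 hj) m hm
      have e2 : 8 * (r + 1) ≤ n := Ln_big (by omega)
      omega

end Pool.Agent.H68.GS
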