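import Pool.Agent.H70.OQ.All
import Pool.Agent.H75.GS.Targets

/-!
# Row WRT: the configuration and the worlds
-/

set_option autoImplicit false

namespace Pool.Agent.H68.GS

open Finset Filter Pool.Agent.H6.NB Pool.Agent.H70.OQ Pool.Agent.H75.GS

theorem pst_length (n : ℕ) (x : Xn n) (y : Ys n 0) : (pst n x y).length = 3 * n + 1 := by
  simp [pst]
  ring

/-- the level of an instance -/
theorem lv_lt_iff {n : ℕ} (hn : 2 ≤ n) {a0 : ℕ} (s : List Bool) (hs : n ^ 2 ≤ s.length) (h0 : 1 ≤ a0) :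
    lv n s < a0 ↔ s.length < n ^ 2 ^ a0 := by
  unfold lv
  have h1 : s.length ≠ 0 := by
    have : 0 < n ^ 2 := by positivity
    omega
  have h2 : Nat.log n s.length ≠ 0 := by
    have : 2 ≤ Nat.log n s.length := (Nat.le_log_iff_pow_le (by omega) h1).2 hs
    omega
  rw [Nat.log_lt_iff_lt_pow (by norm_num) h2, Nat.log_lt_iff_lt_pow (by omega) h1]

/-- The encrypted answers of the stage solve the recursion, at an instance where the modified answers
are the old ones. -/
theorem fixedx (hLKX : T_LKX) (hMSK : T_MSK) {A : List Bool → (List Bool → Bool) → Prop}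
    (hA : LocA A) {n a H : ℕ} (hn : 2 ≤ n) {u : List Bool} (hu : u.length = 3 * n + 1)
    {σ₀ O₀ O : List Bool → Bool} (h0 : Bldg A σ₀ O₀)
    {T : Nn n 1 → Bool} {κ : Om n (2 ^ a) → Bool}
    {P : Blk (fun s : Om n (2 ^ a) => ns s.1) fun s => qs s.1}
    (hO : Bldg (mskA H u A) (sdg 1 n (2 ^ a) σ₀ T κ P) O)
    {D : Om n (2 ^ a) → (Cg 1 n (2 ^ a) → Bool) → Bool}
    (hD : ∀ (s : Om n (2 ^ a)) T e P, (A s.1 (fun w => vlG T e P (clg 1 n (2 ^ a) O₀ w)) ↔
      accG D P s T e = true)) (s : Om n (2 ^ a)) (hs : H ≤ s.1.length) :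
    O (key s.1) = xor (accG D P s T fun s => O (key s.1)) (κ s) := by
  classical
  rw [hO (key s.1)]
  have h1 : sdg 1 n (2 ^ a) σ₀ T κ P (key s.1) = κ s := by
    unfold sdg
    rw [(pf_CLH 1 n (2 ^ a) σ₀).2.1 s]
    rfl
  have h2 : (∃ s', key s.1 = key s' ∧ mskA H u A s' O) ↔
      accG D P s T (fun s => O (key s.1)) = true := by
    rw [← hD s T (fun s => O (key s.1)) P]
    have h3 : (∃ s', key s.1 = key s' ∧ mskA H u A s' O) ↔ A s.1 O := by
      constructor
      · rintro ⟨s', hs', h⟩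
        have e : s.1 = s' := by
          unfold key at hs'
          simpa using hs'
        rw [← e] at h
        unfold mskA at h
        rw [if_neg (by omega)] at h
        exact h
      · intro h
        refine ⟨s.1, rfl, ?_⟩
        unfold mskA
        rw [if_neg (by omega)]
        exact h
    rw [h3]
    refine hA s.1 _ _ fun w hw => hLKX 1 A (mskA H u A) n (2 ^ a) σ₀ O₀ O T κ P hA
      (fun s' O' hs' => (hMSK A hA).2.2 H u s' O' ?_) hn h0 hO w ?_
    · rw [hu]
      nlinarith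
    · have h4 : w.length ≤ w.length ^ 2 := Nat.le_self_pow (by norm_num) _
      exact h4.trans (hw.trans s.2.2.le)
  rw [h1, Bool.xor_comm]
  congr 1
  rcases hb : accG D P s T (fun s => O (key s.1)) with _ | _
  · rw [decide_eq_false_iff_not, h2, hb]; simp
  · rw [decide_eq_true_iff, h2, hb]

theorem wrt (hWRF : T_WRF) (hLKX : T_LKX) (hMSK : T_MSK) (hSYX : T_SYX) : T_WRT := by
  intro n a a0 A σ₀ O₀ OT Ox p κ P D S t d hW hSy hS ht hD
  have hfT := fun s => Pool.Agent.H70.OQ.SGG.fixed pf_CLH pf_LKG hW.loc hW.n2 hW.b0 hW.bT hD s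
  have hLvl := (pf_MEG (Nn n 1) (Om n (2 ^ a)) (fun s => ns s.1) (fun s => qs s.1) D
    (fun s => lv n s.1) S t d a hSy P).1
  obtain ⟨-, hun, -, -⟩ := pf_EXG (Nn n 1) (Om n (2 ^ a)) (accG D P) (fun s => lv n s.1) a hLvl
  refine ⟨hun (TT n p) κ _ hfT, fun x hx => ?_⟩
  have hSy' := (hSYX (Nn n 1) (Om n (2 ^ a)) (fun s => ns s.1) (fun s => qs s.1) D
    (fun s => lv n s.1) S t d a a0 hS ht hSy).2
  have hLvl' := (pf_MEG (Nn n 1) (Om n (2 ^ a)) (fun s => ns s.1) (fun s => qs s.1)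
    (Daw D (fun s => lv n s.1) a0) (fun s => lv n s.1) S t d a hSy' P).1
  obtain ⟨-, hun', -, -⟩ := pf_EXG (Nn n 1) (Om n (2 ^ a))
    (accG (Daw D (fun s => lv n s.1) a0) P) (fun s => lv n s.1) a hLvl'
  unfold exG
  refine hun' (UU n p x) _ _ fun s => ?_
  have hiff := lv_lt_iff hW.n2 (a0 := a0) s.1 s.2.1 hW.a1
  obtain ⟨-, -, h3, -⟩ := hWRF n a a0 A σ₀ O₀ OT Ox p κ P hW x hx
  by_cases hs : s.1.length < n ^ 2 ^ a0
  · have hl : lv n s.1 < a0 := hiff.2 hs
    have e0 : ∀ T e, accG (Daw D (fun s => lv n s.1) a0) P s T e = false := by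
      intro T e
      simp [accG, Daw, hl]
    simp only [thG, e0, Bool.xor_false, Bool.false_xor]
    exact h3 s.1 hs
  · have hl : ¬ lv n s.1 < a0 := fun h => hs (hiff.1 h)
    have e0 : ∀ T e, accG (Daw D (fun s => lv n s.1) a0) P s T e = accG D P s T e := by
      intro T e
      simp [accG, Daw, hl]
    simp only [thG, e0]
    have h5 := fixedx hLKX hMSK hW.loc hW.n2 (pst_length n x (p.1 x)) hW.b0 (hW.bx x) hD s
      (not_lt.1 hs)
    have h6 := hfT s
    rw [h5]
    congr 1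
    change κ s = xor (OT (key s.1)) (accG D P s (TT n p) fun s => OT (key s.1))
    generalize accG D P s (TT n p) (fun s => OT (key s.1)) = b at h6 ⊢
    rw [h6]
    cases b <;> cases κ s <;> rfl

end Pool.Agent.H68.GS
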